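import Pool.Agent.H165.QCat.Final

/-!
# Log-concavity of almost all coefficients of the `q`-Catalan numbers (Q1)

There are `t` and `N` such that for all `n ≥ N` the coefficients `m_n(t), ..., m_n(n (n - 1) - t)` of
the `q`-Catalan number `C_n(q)` form a log-concave sequence; in fact the inequalities
`m_n(k - 1) m_n(k + 1) < m_n(k) ^ 2` are strict and `m_n(k) > 0` for
`t + 1 ≤ k ≤ n (n - 1) - t - 1`.

Proof. By symmetry let `k ≤ n (n - 1) / 2`, and choose `0 < r ≤ 1` such that the distribution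
`P(j) = m_n(j) r ^ j / C_n(r)` has the mean `k`. By the inequality of the means it is enough that
`2 P(k) > P(k - 1) + P(k + 1) > 0`, and
`2 P(k) - P(k - 1) - P(k + 1)` is the integral of `Re (φ(θ) e^{- i k θ}) (1 - cos θ) / π`, where
`φ(θ) = C_n(r e^{iθ}) / C_n(r)`. Put `M = min (n, 1 / (1 - r))`. If `|θ| ≤ M^{-4/3} / 16` the
argument of `φ(θ) e^{- i k θ}` is at most one, and if `|θ| ≥ M^{-4/3} / 16` then
`|φ(θ)| ≤ 16 M ^ 2 exp (- c M^{1/3})`; the latter is proved by pairing the factors `1 + y z ^ i` and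
`1 + y z ^ (i + d)` of the product `∏ (1 + y z ^ i)`, `i < 2 n`, for `n ≤ i < n + M / 2`, with `d`
such that `d θ` is far from the multiples of `2 π`.
-/

set_option autoImplicit false

namespace Pool.Agent.Results.MP_532027_co.EventualLogConcavity

open Polynomial Finset

/-- `[m] = 1 + q + ... + q ^ (m - 1)` -/
noncomputable def qInt (m : ℕ) : ℚ[X] := ∑ i ∈ range m, X ^ i

/-- `[m]! = [1] [2] ... [m]` -/
noncomputable def qFac (m : ℕ) : ℚ[X] := ∏ i ∈ range m, qInt (i + 1)

/-- the `q`-Catalan number `[2n]! / ([n+1] [n]! [n]!)` (the quotient is exact) -/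
noncomputable def qCat (n : ℕ) : ℚ[X] := qFac (2 * n) / (qInt (n + 1) * qFac n * qFac n)

/-- **Log-concavity of almost all coefficients of the `q`-Catalan numbers.** -/
theorem result :
    (∀ n : ℕ, qInt (n + 1) * qFac n * qFac n * qCat n = qFac (2 * n) ∧
      (qCat n).natDegree = n * (n - 1)) ∧
    ∃ t N : ℕ, ∀ n : ℕ, N ≤ n → ∀ k : ℕ, t + 1 ≤ k → k + t + 1 ≤ n * (n - 1) →
      0 < (qCat n).coeff k ∧
        (qCat n).coeff (k - 1) * (qCat n).coeff (k + 1) < (qCat n).coeff k ^ 2 := by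
  have hI : ∀ m, qInt m = Pool.Agent.H165.QCat.qi m := fun m => rfl
  have hF : ∀ m, qFac m = Pool.Agent.H165.QCat.qf m := fun m => rfl
  have hcat : ∀ n : ℕ, qInt (n + 1) * qFac n * qFac n * qCat n = qFac (2 * n) := by
    intro n
    obtain ⟨C, hC⟩ := Pool.Agent.H165.QCat.exists_cat n
    rw [← hI, ← hF, ← hF] at hC
    unfold qCat
    rw [← hC]
    have hne : qInt (n + 1) * qFac n * qFac n ≠ 0 := by
      rw [hI, hF]
      exact mul_ne_zero (mul_ne_zero (Pool.Agent.H165.QCat.qi_monic n).ne_zero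
        (Pool.Agent.H165.QCat.qf_monic n).ne_zero) (Pool.Agent.H165.QCat.qf_monic n).ne_zero
    exact (congrArg _ (mul_div_cancel_left₀ C hne)).trans rfl
  have hmul : ∀ n : ℕ, n * (n - 1) + n = n * n := by
    intro n
    rcases n with _ | n
    · rfl
    · rw [Nat.add_sub_cancel]
      ring
  refine ⟨fun n => ⟨hcat n, ?_⟩, ?_⟩
  · have h1 := Pool.Agent.H165.QCat.cat_deg n (qCat n) (by rw [← hI, ← hF, ← hF]; exact hcat n)
    have h2 := hmul n
    omega
  · obtain ⟨t, N, h⟩ := Pool.Agent.H165.QCat.main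
    refine ⟨t, N, fun n hn k hk1 hk2 => ?_⟩
    obtain ⟨k, rfl⟩ : ∃ j, k = j + 1 := ⟨k - 1, by omega⟩
    have h2 := hmul n
    have h3 := h n hn (qCat n) (by rw [← hI, ← hF, ← hF]; exact hcat n) k (by omega) (by omega)
    rw [Nat.add_sub_cancel]
    exact h3

end Pool.Agent.Results.MP_532027_co.EventualLogConcavity
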